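import Mathlib
import Pool.Agent.R919.FE.Tens
import Pool.Agent.R919.GT.Eng

/-!
# Hodge classes and Tate classes on the same tensor powers
-/

set_option linter.unusedSectionVars false
set_option autoImplicit false

namespace Pool.Agent.R919.MM

open Matrix Module Pool.Agent.R919

section scal

variable (K : Type) [Field K] [CharZero K]

/-- The span with coefficients in `K` of a space of rational functions. -/
def scal {Ω : Type} (H : Submodule ℚ (Ω → ℚ)) : Submodule K (Ω → K) :=
  Submodule.span K {d | ∃ c ∈ H, d = fun I => (c I : K)}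

variable {K}

theorem mem_over {Ω : Type} {H : Submodule ℚ (Ω → ℚ)} {c : Ω → ℚ} (hc : c ∈ H) :
    (fun I => (c I : K)) ∈ scal K H := Submodule.subset_span ⟨c, hc, rfl⟩

theorem scal_le {Ω : Type} {H : Submodule ℚ (Ω → ℚ)} {T : Submodule K (Ω → K)}
    (h : ∀ c ∈ H, (fun I => (c I : K)) ∈ T) : scal K H ≤ T := by
  rw [scal, Submodule.span_le]
  rintro _ ⟨c, hc, rfl⟩
  exact h c hc

theorem scal_mul {Ω : Type} (H H' : Submodule ℚ (Ω → ℚ)) :
    scal K (H * H') = scal K H * scal K H' := by
  apply le_antisymm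
  · refine scal_le fun c hc => ?_
    refine Submodule.mul_induction_on hc (fun a ha b hb => ?_) (fun a b ha hb => ?_)
    · have e : (fun I => (((a * b) I : ℚ) : K)) =
          (fun I => (a I : K)) * fun I => (b I : K) := by
        funext I
        simp
      rw [e]
      exact Submodule.mul_mem_mul (mem_over ha) (mem_over hb)
    · have e : (fun I => (((a + b) I : ℚ) : K)) =
          (fun I => (a I : K)) + fun I => (b I : K) := by
        funext I
        simp
      rw [e]
      exact Submodule.add_mem _ ha hb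
  · rw [scal, scal, Submodule.span_mul_span, Submodule.span_le]
    rintro _ ⟨_, ⟨a, ha, rfl⟩, _, ⟨b, hb, rfl⟩, rfl⟩
    have e : (fun I => (a I : K)) * (fun I => (b I : K)) = fun I => (((a * b) I : ℚ) : K) := by
      funext I
      simp
    change (fun I => (a I : K)) * (fun I => (b I : K)) ∈ _
    rw [e]
    exact mem_over (Submodule.mul_mem_mul ha hb)

theorem scal_prod {Ω J : Type} [DecidableEq J] (W : Finset J) (hW : W.Nonempty)
    (H : J → Submodule ℚ (Ω → ℚ)) :
    scal K (∏ j ∈ W, H j) = ∏ j ∈ W, scal K (H j) := by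
  induction hW using Finset.Nonempty.cons_induction with
  | singleton j => rw [Finset.prod_singleton, Finset.prod_singleton]
  | cons j W hj _ ih => rw [Finset.prod_cons, Finset.prod_cons, scal_mul, ih]

theorem scal_mono {Ω : Type} {H H' : Submodule ℚ (Ω → ℚ)} (h : H ≤ H') :
    scal K H ≤ scal K H' := scal_le fun _ hc => mem_over (h hc)

end scal

section hodge

variable {J : Type} [DecidableEq J] {B : J → Type} [∀ j, Fintype (B j)]
  [∀ j, DecidableEq (B j)] (V : ∀ j, FE.HodgeStructure (B j)) {κ : Type} [Fintype κ]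
  [DecidableEq κ] (f : κ → J)

/-- The Hodge classes on the factors with indices in `W`. -/
def hodgeIn (W : Finset J) : Submodule ℚ ((∀ x, B (f x)) → ℚ) where
  carrier := {c | (∀ I I', (∀ x, f x ∈ W → I x = I' x) → c I = c I') ∧
    ∀ I, ∑ x with f x ∈ W, ∑ b, (V (f x)).D (I x) b * (c (Function.update I x b) : ℂ) = 0}
  zero_mem' := by
    refine ⟨fun _ _ _ => rfl, fun I => ?_⟩
    simp
  add_mem' := by
    intro c d hc hd
    refine ⟨fun I I' h => ?_, fun I => ?_⟩
    · rw [Pi.add_apply, Pi.add_apply, hc.1 I I' h, hd.1 I I' h]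
    · simp only [Pi.add_apply, Rat.cast_add, mul_add, Finset.sum_add_distrib, hc.2 I, hd.2 I,
        add_zero]
  smul_mem' := by
    intro r c hc
    refine ⟨fun I I' h => ?_, fun I => ?_⟩
    · rw [Pi.smul_apply, Pi.smul_apply, hc.1 I I' h]
    · rw [← mul_zero (r : ℂ), ← hc.2 I, Finset.mul_sum]
      refine Finset.sum_congr rfl fun x _ => ?_
      rw [Finset.mul_sum]
      refine Finset.sum_congr rfl fun b _ => ?_
      rw [Pi.smul_apply, smul_eq_mul, Rat.cast_mul]
      ring

theorem hodge_mul {W : Finset J} {j : J} (hj : j ∉ W) :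
    FE.hodgeClassesOf V f j * hodgeIn V f W ≤ hodgeIn V f (insert j W) := by
  rw [Submodule.mul_le]
  rintro c ⟨hc0, hc⟩ d ⟨hd0, hd⟩
  refine ⟨fun I I' h => ?_, fun I => ?_⟩
  · rw [Pi.mul_apply, Pi.mul_apply,
      hc0 I I' fun x hx => h x (by rw [hx]; exact Finset.mem_insert_self j W),
      hd0 I I' fun x hx => h x (Finset.mem_insert_of_mem hx)]
  · have hsplit : (Finset.univ.filter fun x => f x ∈ insert j W) =
        (Finset.univ.filter fun x => f x = j) ∪ (Finset.univ.filter fun x => f x ∈ W) := by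
      ext x
      simp
    have hdis : Disjoint (Finset.univ.filter fun x => f x = j)
        (Finset.univ.filter fun x => f x ∈ W) := by
      rw [Finset.disjoint_left]
      intro x hx hx'
      rw [Finset.mem_filter] at hx hx'
      exact hj (hx.2 ▸ hx'.2)
    rw [hsplit, Finset.sum_union hdis]
    have h1 : ∑ x with f x = j, ∑ b, (V (f x)).D (I x) b *
        ((((c * d) (Function.update I x b) : ℚ)) : ℂ) =
        (d I : ℂ) * ∑ x with f x = j, ∑ b, (V (f x)).D (I x) b *
          (c (Function.update I x b) : ℂ) := by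
      rw [Finset.mul_sum]
      refine Finset.sum_congr rfl fun x hx => ?_
      rw [Finset.mul_sum]
      refine Finset.sum_congr rfl fun b _ => ?_
      have hxj := (Finset.mem_filter.1 hx).2
      have e : d (Function.update I x b) = d I := by
        refine hd0 _ _ fun y hy => ?_
        have hyx : y ≠ x := by
          rintro rfl
          exact hj (hxj ▸ hy)
        rw [Function.update_of_ne hyx]
      rw [Pi.mul_apply, e, Rat.cast_mul]
      ring
    have h2 : ∑ x with f x ∈ W, ∑ b, (V (f x)).D (I x) b *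
        ((((c * d) (Function.update I x b) : ℚ)) : ℂ) =
        (c I : ℂ) * ∑ x with f x ∈ W, ∑ b, (V (f x)).D (I x) b *
          (d (Function.update I x b) : ℂ) := by
      rw [Finset.mul_sum]
      refine Finset.sum_congr rfl fun x hx => ?_
      rw [Finset.mul_sum]
      refine Finset.sum_congr rfl fun b _ => ?_
      have hxW := (Finset.mem_filter.1 hx).2
      have e : c (Function.update I x b) = c I := by
        refine hc0 _ _ fun y hy => ?_
        have hyx : y ≠ x := by
          rintro rfl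
          exact hj (hy ▸ hxW)
        rw [Function.update_of_ne hyx]
      rw [Pi.mul_apply, e, Rat.cast_mul]
      ring
    rw [h1, h2, hc I, hd I, mul_zero, mul_zero, add_zero]

theorem hodge_prod (W : Finset J) : ∏ j ∈ W, FE.hodgeClassesOf V f j ≤ hodgeIn V f W := by
  induction W using Finset.induction_on with
  | empty =>
    rw [Finset.prod_empty, Submodule.one_le]
    refine ⟨fun _ _ _ => rfl, fun I => ?_⟩
    simp
  | insert j W hj ih =>
    rw [Finset.prod_insert hj]
    exact (mul_le_mul_right ih _).trans (hodge_mul V f hj)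

theorem hodge_all : hodgeIn V f (Finset.univ.image f) ≤ FE.hodgeClasses V f := by
  rintro c ⟨_, hc⟩ I
  rw [← hc I]
  refine Finset.sum_congr ?_ fun _ _ => rfl
  ext x
  simp

end hodge

section tate

variable {K Γ J : Type} [Field K] [CharZero K] [Group Γ] [DecidableEq J] {B : J → Type}
  [∀ j, Fintype (B j)] [∀ j, DecidableEq (B j)] (ρ : ∀ j, Γ →* Matrix (B j) (B j) K)
  (χ : Γ →* Kˣ) {κ : Type} [Fintype κ] [DecidableEq κ] (f : κ → J)

/-- An operator on some of the variables and a function of the other ones. -/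
theorem tact_mul_fun {F : Type} [Field F] {A : κ → Type} [∀ x, Fintype (A x)]
    [∀ x, DecidableEq (A x)] (P : κ → Prop) [DecidablePred P] (N : ∀ x, Matrix (A x) (A x) F)
    (hN : ∀ x, ¬ P x → N x = 1) {c d : (∀ x, A x) → F}
    (hc : ∀ I I', (∀ x, ¬ P x → I x = I' x) → c I = c I') :
    GT.tact N (c * d) = c * GT.tact N d := by
  funext b
  have h1 := congrFun (GT.loc P N hN (c * d) b) b
  have h2 := congrFun (GT.loc P N hN d b) b
  have hb : GT.mixP P b b = b := by
    funext x
    simp [GT.mixP]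
  simp only [hb] at h1 h2
  have e : (fun a => (c * d) (GT.mixP P a b)) = c b • fun a => d (GT.mixP P a b) := by
    funext a
    rw [Pi.mul_apply, Pi.smul_apply, smul_eq_mul]
    congr 1
    refine hc _ _ fun x hx => ?_
    simp [GT.mixP, hx]
  rw [← h1, e, map_smul, Pi.smul_apply, h2, Pi.mul_apply, smul_eq_mul]

/-- The Tate classes on the factors with indices in `W`. -/
def TateIn (W : Finset J) (m : ℤ) (c : (∀ x, B (f x)) → K) : Prop :=
  (∀ I I', (∀ x, f x ∈ W → I x = I' x) → c I = c I') ∧
    ∃ Δ : Subgroup Γ, Δ.FiniteIndex ∧ ∀ γ ∈ Δ, GT.wact f ρ W γ c = ((χ γ ^ m : Kˣ) : K) • c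

theorem tate_mul {W : Finset J} {j : J} (hj : j ∉ W) {m n : ℤ} {c d : (∀ x, B (f x)) → K}
    (hc : c ∈ GT.tateClassesOf ρ χ f j m) (hd : TateIn ρ χ f W n d) :
    TateIn ρ χ f (insert j W) (m + n) (c * d) := by
  obtain ⟨hc0, Δ, hΔ, hc⟩ := (GT.mem_tateClassesOf ρ χ f).1 hc
  obtain ⟨hd0, Δ', hΔ', hd⟩ := hd
  refine ⟨fun I I' h => ?_, Δ ⊓ Δ', inferInstance, fun γ hγ => ?_⟩
  · rw [Pi.mul_apply, Pi.mul_apply,
      hc0 I I' fun x hx => h x (by rw [hx]; exact Finset.mem_insert_self j W),
      hd0 I I' fun x hx => h x (Finset.mem_insert_of_mem hx)]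
  · rw [GT.wact_insert f hj, Module.End.mul_apply, GT.wact,
      tact_mul_fun (fun x => f x ∈ W) _ (fun x hx => if_neg hx) (c := c) (d := d)]
    · have h1 : GT.tact (fun x => if f x ∈ W then ρ (f x) γ else 1) d =
          ((χ γ ^ n : Kˣ) : K) • d := hd γ hγ.2
      rw [h1, GT.gact, mul_comm c, tact_mul_fun (fun x => f x = j) _ (fun x hx => if_neg hx)
        (c := ((χ γ ^ n : Kˣ) : K) • d) (d := c)]
      · have h2 : GT.tact (fun x => if f x = j then ρ (f x) γ else 1) c =
          ((χ γ ^ m : Kˣ) : K) • c := hc γ hγ.1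
        rw [h2, smul_mul_smul_comm, _root_.zpow_add, Units.val_mul, mul_comm d c,
          mul_comm ((χ γ ^ n : Kˣ) : K)]
      · intro I I' h
        rw [Pi.smul_apply, Pi.smul_apply]
        congr 1
        refine hd0 _ _ fun x hx => h x ?_
        rintro rfl
        exact hj hx
    · intro I I' h
      refine hc0 _ _ fun x hx => h x ?_
      rw [hx]
      exact hj

/-- The Tate classes of all twists on the factors with indices in `W`. -/
def tateIn (W : Finset J) : Submodule K ((∀ x, B (f x)) → K) :=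
  Submodule.span K {c | ∃ m, TateIn ρ χ f W m c}

theorem tate_prod (W : Finset J) :
    ∏ j ∈ W, (⨆ m, GT.tateClassesOf ρ χ f j m) ≤ tateIn ρ χ f W := by
  induction W using Finset.induction_on with
  | empty =>
    rw [Finset.prod_empty, Submodule.one_le]
    refine Submodule.subset_span ⟨0, fun _ _ _ => rfl, ⊤, inferInstance, fun γ _ => ?_⟩
    rw [GT.wact]
    simp only [Finset.notMem_empty, if_false]
    rw [GT.tact_one, zpow_zero, Units.val_one, one_smul]
    rfl
  | insert j W hj ih =>
    rw [Finset.prod_insert hj, Submodule.iSup_mul]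
    refine iSup_le fun m => ?_
    refine (mul_le_mul_right ih _).trans ?_
    rw [tateIn, Submodule.mul_le]
    intro c hc d hd
    refine Submodule.span_induction (p := fun d _ => c * d ∈ tateIn ρ χ f (insert j W)) ?_ ?_ ?_
      ?_ hd
    · rintro d ⟨n, hd⟩
      exact Submodule.subset_span ⟨m + n, tate_mul ρ χ f hj hc hd⟩
    · rw [mul_zero]
      exact Submodule.zero_mem _
    · intro a b _ _ ha hb
      rw [mul_add]
      exact Submodule.add_mem _ ha hb
    · intro r a _ ha
      rw [mul_smul_comm]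
      exact Submodule.smul_mem _ _ ha

theorem tate_all : tateIn ρ χ f (Finset.univ.image f) ≤ ⨆ m, GT.tateClasses ρ χ f m := by
  rw [tateIn, Submodule.span_le]
  rintro c ⟨m, _, Δ, hΔ, hc⟩
  refine Submodule.mem_iSup_of_mem m ?_
  refine (GT.mem_tateClasses ρ χ f).2 ⟨Δ, hΔ, fun γ hγ => ?_⟩
  rw [← GT.wact_image, hc γ hγ]

end tate

section main

variable {K Γ J : Type} [Field K] [CharZero K] [Group Γ] [DecidableEq J] {B : J → Type}
  [∀ j, Fintype (B j)] [∀ j, DecidableEq (B j)] (V : ∀ j, FE.HodgeStructure (B j))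
  (ρ : ∀ j, Γ →* Matrix (B j) (B j) K) (χ : Γ →* Kˣ)

/-- The Mumford-Tate statement for the tensor powers of the factor with index `j`: in all tensor
products over finite sets the Tate classes (of all twists) on the factors with index `j` are the
linear combinations over `K` of the Hodge classes. -/
def MumfordTateAt (j : J) : Prop :=
  ∀ (κ : Type) [Fintype κ] [DecidableEq κ] (f : κ → J),
    scal K (FE.hodgeClassesOf V f j) = ⨆ m, GT.tateClassesOf ρ χ f j m

theorem main (o : J) (Q : Matrix (B o) (B o) K) (hQu : IsUnit Q)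
    (hQ : ∀ γ, ∃ r : K, (ρ o γ)ᵀ * Q * ρ o γ = r • Q)
    (h1 : ∀ j, j ≠ o → (V j).NoCM ∧ GT.IsEll χ (ρ j))
    (h2 : ∀ i j, i ≠ o → j ≠ o → i ≠ j → FE.Independent (V i) (V j) ∧ GT.NonIso (ρ i) (ρ j))
    (h3 : ∀ j, MumfordTateAt V ρ χ j) :
    ∃ S : Finset J, o ∉ S ∧ S.card ≤ Fintype.card (B o) ∧
      ∀ (κ : Type) [Fintype κ] [DecidableEq κ] [Nonempty κ] (f : κ → J), (∀ x, f x ∉ S) →
        FE.hodgeClasses V f ≤ ∏ j ∈ Finset.univ.image f, FE.hodgeClassesOf V f j ∧
          scal K (FE.hodgeClasses V f) = ⨆ m, GT.tateClasses ρ χ f m := by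
  obtain ⟨S, hS1, hS2, hS3⟩ := FE.main V o (fun j hj => (h1 j hj).1)
    (fun i j hi hj hij => (h2 i j hi hj hij).1)
  obtain ⟨S', hS1', hS2', _, hS3'⟩ := GT.main (χ := χ) (ρ := ρ) o Q hQu hQ
    (fun j hj => (h1 j hj).2) (fun i j hi hj hij => (h2 i j hi hj hij).2)
  refine ⟨S ∪ S', ?_, ?_, fun κ _ _ _ f hf => ?_⟩
  · rw [Finset.mem_union]
    exact fun h => h.elim hS1 hS1'
  · have := Finset.card_union_le S S'
    omega
  · have hf1 : ∀ x, f x ∉ S := fun x hx => hf x (Finset.mem_union_left _ hx)
    have hf2 : ∀ x, f x ∉ S' := fun x hx => hf x (Finset.mem_union_right _ hx)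
    have hW : (Finset.univ.image f).Nonempty := Finset.univ_nonempty.image f
    have h4 := hS3 κ f hf1
    refine ⟨h4, le_antisymm ?_ (iSup_le fun m => ?_)⟩
    · refine (scal_mono h4).trans ?_
      rw [scal_prod _ hW]
      refine le_trans (le_of_eq ?_) ((tate_prod ρ χ f _).trans (tate_all ρ χ f))
      exact Finset.prod_congr rfl fun j _ => h3 j κ f
    · obtain ⟨e, _, he⟩ := hS3' κ f hf2 m
      refine he.trans ?_
      refine le_trans ?_ (scal_mono ((hodge_prod V f _).trans (hodge_all V f)))
      rw [scal_prod _ hW]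
      refine Finset.prod_le_prod' fun j _ => ?_
      rw [h3 j κ f]
      exact le_iSup (fun m => GT.tateClassesOf ρ χ f j m) (e j)

end main

end Pool.Agent.R919.MM
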